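import Mathlib
import Pool.Agent.Helper602.MK.Defs

/-!
# Finite Fourier analysis modulo `Q`
-/

set_option autoImplicit false

namespace Pool.Agent.P8H6.Chw

open Finset
open Pool.Agent.Helper602.MK (ee)

theorem ee_add (x y : ℝ) : ee (x + y) = ee x * ee y := by
  unfold ee
  rw [← Complex.exp_add]
  congr 1
  push_cast
  ring

theorem ee_zero : ee 0 = 1 := by
  unfold ee
  simp

theorem ee_int (n : ℤ) : ee (n : ℝ) = 1 := by
  unfold ee
  rw [Complex.exp_eq_one_iff]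
  exact ⟨n, by push_cast; ring⟩

theorem ee_norm (x : ℝ) : ‖ee x‖ = 1 := by
  unfold ee
  have : (2 * Real.pi * x * Complex.I : ℂ) = ((2 * Real.pi * x : ℝ) : ℂ) * Complex.I := by push_cast; ring
  rw [this, Complex.norm_exp_ofReal_mul_I]

theorem ee_conj (x : ℝ) : (starRingEnd ℂ) (ee x) = ee (-x) := by
  unfold ee
  rw [← Complex.exp_conj]
  congr 1
  simp only [map_mul, Complex.conj_I, Complex.conj_ofReal, map_ofNat]
  push_cast
  ring

theorem ee_neg_mul (x : ℝ) : ee (-x) * ee x = 1 := by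
  rw [← ee_add, neg_add_cancel, ee_zero]

theorem ee_nsmul (n : ℕ) (x : ℝ) : ee ((n : ℝ) * x) = ee x ^ n := by
  unfold ee
  rw [← Complex.exp_nat_mul]
  congr 1
  push_cast
  ring

/-- orthogonality over any `Q` consecutive integers -/
theorem orthZ (Q : ℕ) (hQ : 0 < Q) (t : ℤ) (A : ℕ) :
    ∑ k ∈ Ico A (A + Q), ee ((k : ℝ) * t / Q) = if (Q : ℤ) ∣ t then (Q : ℂ) else 0 := by
  have hQ' : (Q : ℝ) ≠ 0 := by exact_mod_cast hQ.ne'
  split_ifs with h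
  · obtain ⟨c, hc⟩ := h
    have h1 : ∀ k ∈ Ico A (A + Q), ee ((k : ℝ) * t / Q) = 1 := by
      intro k _
      have h2 : (k : ℝ) * t / Q = ((k * c : ℤ) : ℝ) := by
        rw [hc]
        push_cast
        field_simp
      rw [h2, ee_int]
    rw [sum_congr rfl h1, sum_const, Nat.card_Ico, nsmul_eq_mul, mul_one]
    congr 1
    omega
  · have h1 : ∀ k ∈ Ico A (A + Q), ee ((k : ℝ) * t / Q) = ee ((t : ℝ) / Q) ^ k := by
      intro k _
      rw [← ee_nsmul]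
      congr 1
      ring
    rw [sum_congr rfl h1]
    have h2 : ee ((t : ℝ) / Q) ^ Q = 1 := by
      rw [← ee_nsmul, mul_div_cancel₀ _ hQ', ee_int]
    have h3 : ee ((t : ℝ) / Q) ≠ 1 := by
      intro h3
      apply h
      unfold ee at h3
      rw [Complex.exp_eq_one_iff] at h3
      obtain ⟨n, hn⟩ := h3
      have h4 : (2 * Real.pi * Complex.I : ℂ) ≠ 0 := by
        simp [Real.pi_ne_zero, Complex.I_ne_zero]
      have h5 : (((t : ℝ) / Q : ℝ) : ℂ) = n := by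
        have : (2 * Real.pi * Complex.I : ℂ) * (((t : ℝ) / Q : ℝ) : ℂ) =
            (2 * Real.pi * Complex.I : ℂ) * n := by
          linear_combination hn
        exact mul_left_cancel₀ h4 this
      have h6 : (t : ℝ) / Q = n := by exact_mod_cast h5
      rw [div_eq_iff hQ'] at h6
      exact ⟨n, by have : t = n * Q := by exact_mod_cast h6
                   rw [this]; ring⟩
    rw [sum_Ico_eq_sum_range, Nat.add_sub_cancel_left]
    simp only [pow_add]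
    rw [← mul_sum]
    have h4 := mul_geom_sum (ee ((t : ℝ) / Q)) Q
    rw [h2, sub_self] at h4
    rcases mul_eq_zero.1 h4 with h5 | h5
    · exact absurd (sub_eq_zero.1 h5) h3
    · rw [h5, mul_zero]

/-- Parseval -/
theorem pars (Q : ℕ) (hQ : 0 < Q) (S : Finset ℕ) (hS : ∀ s ∈ S, ∀ s' ∈ S, (Q : ℤ) ∣ (s : ℤ) - s' → s = s')
    (c : ℕ → ℂ) (A : ℕ) :
    ∑ k ∈ Ico A (A + Q), ‖∑ s ∈ S, c s * ee ((k : ℝ) * s / Q)‖ ^ 2 = Q * ∑ s ∈ S, ‖c s‖ ^ 2 := by
  have h1 : ((∑ k ∈ Ico A (A + Q), ‖∑ s ∈ S, c s * ee ((k : ℝ) * s / Q)‖ ^ 2 : ℝ) : ℂ) =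
      ((Q * ∑ s ∈ S, ‖c s‖ ^ 2 : ℝ) : ℂ) := by
    push_cast
    have e1 : ∀ k ∈ Ico A (A + Q), (‖∑ s ∈ S, c s * ee ((k : ℝ) * s / Q)‖ : ℂ) ^ 2 =
        ∑ s ∈ S, ∑ s' ∈ S, (c s * (starRingEnd ℂ) (c s')) * ee ((k : ℝ) * (((s : ℤ) - s' : ℤ) : ℝ) / Q) := by
      intro k _
      have e2 : (‖∑ s ∈ S, c s * ee ((k : ℝ) * s / Q)‖ : ℂ) ^ 2 =
          (∑ s ∈ S, c s * ee ((k : ℝ) * s / Q)) *
            (starRingEnd ℂ) (∑ s ∈ S, c s * ee ((k : ℝ) * s / Q)) := by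
        rw [Complex.mul_conj, Complex.normSq_eq_norm_sq]
        push_cast
        rfl
      rw [e2, map_sum, sum_mul_sum]
      refine sum_congr rfl fun s _ => sum_congr rfl fun s' _ => ?_
      rw [map_mul, ee_conj]
      have e3 : (k : ℝ) * (((s : ℤ) - s' : ℤ) : ℝ) / Q = (k : ℝ) * s / Q + -((k : ℝ) * s' / Q) := by
        push_cast
        ring
      rw [e3, ee_add]
      ring
    rw [sum_congr rfl e1, sum_comm]
    have e4 : ∀ s ∈ S, ∑ k ∈ Ico A (A + Q), ∑ s' ∈ S,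
        (c s * (starRingEnd ℂ) (c s')) * ee ((k : ℝ) * (((s : ℤ) - s' : ℤ) : ℝ) / Q) = Q * (‖c s‖ : ℂ) ^ 2 := by
      intro s hs
      rw [sum_comm]
      rw [sum_eq_single s]
      · rw [← mul_sum, orthZ Q hQ, if_pos (by simp), Complex.mul_conj, Complex.normSq_eq_norm_sq]
        push_cast
        ring
      · intro s' hs' hne
        rw [← mul_sum, orthZ Q hQ, if_neg (fun h => hne (hS s hs s' hs' h).symm), mul_zero]
      · intro h
        exact absurd hs h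
    rw [sum_congr rfl e4, ← mul_sum]
  exact_mod_cast h1

/-- Parseval, the opposite sign -/
theorem pars' (Q : ℕ) (hQ : 0 < Q) (S : Finset ℕ) (hS : ∀ s ∈ S, ∀ s' ∈ S, (Q : ℤ) ∣ (s : ℤ) - s' → s = s')
    (c : ℕ → ℂ) (A : ℕ) :
    ∑ k ∈ Ico A (A + Q), ‖∑ s ∈ S, c s * ee (-((k : ℝ) * s / Q))‖ ^ 2 = Q * ∑ s ∈ S, ‖c s‖ ^ 2 := by
  have h := pars Q hQ S hS (fun s => (starRingEnd ℂ) (c s)) A
  have e1 : ∀ k ∈ Ico A (A + Q), ‖∑ s ∈ S, c s * ee (-((k : ℝ) * s / Q))‖ ^ 2 =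
      ‖∑ s ∈ S, (starRingEnd ℂ) (c s) * ee ((k : ℝ) * s / Q)‖ ^ 2 := by
    intro k _
    rw [← Complex.norm_conj, map_sum]
    congr 2
    refine sum_congr rfl fun s _ => ?_
    rw [map_mul, ee_conj, neg_neg]
  rw [sum_congr rfl e1, h]
  congr 1
  refine sum_congr rfl fun s _ => ?_
  rw [Complex.norm_conj]

theorem inj_Ico {Q A B : ℕ} (h : B - A ≤ Q) : ∀ s ∈ Ico A B, ∀ s' ∈ Ico A B, (Q : ℤ) ∣ (s : ℤ) - s' → s = s' := by
  intro s hs s' hs' ⟨c, hc⟩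
  rw [mem_Ico] at hs hs'
  rcases lt_trichotomy c 0 with h0 | h0 | h0
  · have : (Q : ℤ) * c ≤ Q * (-1) := mul_le_mul_of_nonneg_left (by omega) (by omega)
    omega
  · rw [h0, mul_zero] at hc
    omega
  · have : (Q : ℤ) * 1 ≤ Q * c := mul_le_mul_of_nonneg_left (by omega) (by omega)
    omega

end Pool.Agent.P8H6.Chw
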