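import Mathlib
import Pool.Agent.P8H6.Chw.Four

/-!
# A sequence whose products `z n z (n + 1)` and `z n z (n + 2)` are orthogonal to linear phases has at most one third
of its energy on few frequencies
-/

set_option autoImplicit false

namespace Pool.Agent.P8H6.Chw

open Finset
open Pool.Agent.Helper602.MK (ee)

section

variable (z : ℕ → ℝ) (A B Q : ℕ)

/-- the Fourier transform of `z` on `[A, B)`, modulo `Q` -/
noncomputable def U (ξ : ℕ) : ℂ := ∑ n ∈ Ico A B, (z n : ℂ) * ee (-((ξ : ℝ) * n / Q))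

theorem U_norm (hz : ∀ n, |z n| ≤ 1) (ξ : ℕ) : ‖U z A B Q ξ‖ ≤ (B - A : ℕ) := by
  unfold U
  refine (norm_sum_le _ _).trans ?_
  refine (sum_le_sum (g := fun _ => (1 : ℝ)) fun n _ => ?_).trans (le_of_eq ?_)
  · rw [norm_mul, ee_norm, mul_one, Complex.norm_real]
    exact hz n
  · rw [sum_const, Nat.card_Ico, nsmul_eq_mul, mul_one]

theorem U_pars (hz : ∀ n, |z n| ≤ 1) (hQ : 0 < Q) (hBA : B - A ≤ Q) :
    ∑ ξ ∈ range Q, ‖U z A B Q ξ‖ ^ 2 ≤ Q * (B - A : ℕ) := by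
  have h := pars' Q hQ (Ico A B) (inj_Ico hBA) (fun n => (z n : ℂ)) 0
  rw [zero_add, ← range_eq_Ico] at h
  have e : ∑ ξ ∈ range Q, ‖U z A B Q ξ‖ ^ 2 =
      ∑ k ∈ range Q, ‖∑ s ∈ Ico A B, (z s : ℂ) * ee (-((k : ℝ) * s / Q))‖ ^ 2 := rfl
  rw [e, h]
  apply mul_le_mul_of_nonneg_left _ (Nat.cast_nonneg _)
  refine (sum_le_sum (g := fun _ => (1 : ℝ)) fun n _ => ?_).trans (le_of_eq ?_)
  · rw [Complex.norm_real]
    exact pow_le_one₀ (norm_nonneg _) (hz n)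
  · rw [sum_const, Nat.card_Ico, nsmul_eq_mul, mul_one]

variable (L : Finset ℕ)

/-- the part of `z` on the frequencies of `L` -/
noncomputable def a (n : ℕ) : ℂ := ∑ ξ ∈ L, (U z A B Q ξ / Q) * ee ((n : ℝ) * ξ / Q)

/-- the energy on the frequencies of `L` -/
noncomputable def en : ℝ := (∑ ξ ∈ L, ‖U z A B Q ξ‖ ^ 2) / Q

theorem sumU (hz : ∀ n, |z n| ≤ 1) (hQ : 0 < Q) (hBA : B - A ≤ Q) :
    ∑ ξ ∈ L, ‖U z A B Q ξ / Q‖ ≤ L.card := by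
  have hQ' : (0 : ℝ) < Q := by exact_mod_cast hQ
  refine (sum_le_sum (g := fun _ => (1 : ℝ)) fun ξ _ => ?_).trans (le_of_eq ?_)
  · rw [norm_div, Complex.norm_natCast, div_le_one hQ']
    exact (U_norm z A B Q hz ξ).trans (by exact_mod_cast hBA)
  · rw [sum_const, nsmul_eq_mul, mul_one]

theorem a_norm (hz : ∀ n, |z n| ≤ 1) (hQ : 0 < Q) (hBA : B - A ≤ Q) (n : ℕ) : ‖a z A B Q L n‖ ≤ L.card := by
  unfold a
  refine (norm_sum_le _ _).trans (le_trans (sum_le_sum fun ξ _ => ?_) (sumU z A B Q L hz hQ hBA))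
  rw [norm_mul, ee_norm, mul_one]

theorem a_energy (hQ : 0 < Q) (hL : L ⊆ range Q) (A' : ℕ) :
    ∑ n ∈ Ico A' (A' + Q), ‖a z A B Q L n‖ ^ 2 = en z A B Q L := by
  have hQ' : (Q : ℝ) ≠ 0 := by exact_mod_cast hQ.ne'
  have h := pars Q hQ L (fun s hs s' hs' => inj_Ico (A := 0) (B := Q) (by omega) s
    (by rw [mem_Ico]; exact ⟨Nat.zero_le _, mem_range.1 (hL hs)⟩) s'
    (by rw [mem_Ico]; exact ⟨Nat.zero_le _, mem_range.1 (hL hs')⟩)) (fun ξ => U z A B Q ξ / Q) A'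
  have e : ∑ n ∈ Ico A' (A' + Q), ‖a z A B Q L n‖ ^ 2 =
      ∑ k ∈ Ico A' (A' + Q), ‖∑ s ∈ L, (U z A B Q s / Q) * ee ((k : ℝ) * s / Q)‖ ^ 2 := rfl
  rw [e, h]
  unfold en
  rw [mul_sum, sum_div]
  refine sum_congr rfl fun ξ _ => ?_
  rw [norm_div, Complex.norm_natCast]
  field_simp

theorem corr (hQ : 0 < Q) : ∑ n ∈ Ico A B, (z n : ℂ) * (starRingEnd ℂ) (a z A B Q L n) = (en z A B Q L : ℂ) := by
  have hQ' : (Q : ℂ) ≠ 0 := by exact_mod_cast hQ.ne'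
  unfold a en
  push_cast
  have e1 : ∀ n ∈ Ico A B, (z n : ℂ) * (starRingEnd ℂ) (∑ ξ ∈ L, (U z A B Q ξ / Q) * ee ((n : ℝ) * ξ / Q)) =
      ∑ ξ ∈ L, ((starRingEnd ℂ) (U z A B Q ξ) / Q) * ((z n : ℂ) * ee (-((ξ : ℝ) * n / Q))) := by
    intro n _
    rw [map_sum, mul_sum]
    refine sum_congr rfl fun ξ _ => ?_
    rw [map_mul, map_div₀, ee_conj, Complex.conj_natCast, mul_comm (n : ℝ) ξ]
    ring
  rw [sum_congr rfl e1, sum_comm, sum_div]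
  refine sum_congr rfl fun ξ _ => ?_
  rw [← mul_sum]
  have e2 : ∑ n ∈ Ico A B, (z n : ℂ) * ee (-((ξ : ℝ) * n / Q)) = U z A B Q ξ := rfl
  rw [e2, div_mul_eq_mul_div, mul_comm, Complex.mul_conj, Complex.normSq_eq_norm_sq]
  push_cast
  rfl

/-- cross terms -/
theorem cross (hz : ∀ n, |z n| ≤ 1) (hQ : 0 < Q) (hBA : B - A ≤ Q) (i j : ℕ) (I : Finset ℕ) (D : ℝ)
    (hD : ∀ α : ℝ, ‖∑ n ∈ I, ((z (n + i) * z (n + j) : ℝ) : ℂ) * ee (α * n)‖ ≤ D) :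
    ‖∑ n ∈ I, ((z (n + i) : ℂ) * (starRingEnd ℂ) (a z A B Q L (n + i))) *
      (starRingEnd ℂ) ((z (n + j) : ℂ) * (starRingEnd ℂ) (a z A B Q L (n + j)))‖ ≤ L.card ^ 2 * D := by
  have hD0 : 0 ≤ D := (norm_nonneg _).trans (hD 0)
  have e1 : ∀ n ∈ I, ((z (n + i) : ℂ) * (starRingEnd ℂ) (a z A B Q L (n + i))) *
      (starRingEnd ℂ) ((z (n + j) : ℂ) * (starRingEnd ℂ) (a z A B Q L (n + j))) =
      ∑ ξ ∈ L, ∑ ξ' ∈ L, (((starRingEnd ℂ) (U z A B Q ξ / Q) * ee (-((i : ℝ) * ξ / Q))) *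
        ((U z A B Q ξ' / Q) * ee ((j : ℝ) * ξ' / Q))) *
          (((z (n + i) * z (n + j) : ℝ) : ℂ) * ee ((((ξ' : ℝ) - ξ) / Q) * n)) := by
    intro n _
    rw [map_mul, Complex.conj_conj, Complex.conj_ofReal]
    unfold a
    rw [map_sum]
    rw [show ∀ x y s t : ℂ, (x * s) * (y * t) = (x * y) * (s * t) from fun x y s t => by ring, sum_mul_sum, mul_sum]
    refine sum_congr rfl fun ξ _ => ?_
    rw [mul_sum]
    refine sum_congr rfl fun ξ' _ => ?_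
    rw [map_mul, ee_conj]
    have e2 : -(((n + i : ℕ) : ℝ) * ξ / Q) = -((i : ℝ) * ξ / Q) + -((n : ℝ) * ξ / Q) := by
      push_cast; ring
    have e3 : (((n + j : ℕ) : ℝ) * ξ' / Q) = (j : ℝ) * ξ' / Q + (n : ℝ) * ξ' / Q := by
      push_cast; ring
    have e4 : (((ξ' : ℝ) - ξ) / Q) * n = -((n : ℝ) * ξ / Q) + (n : ℝ) * ξ' / Q := by ring
    rw [e2, e3, e4, ee_add, ee_add, ee_add]
    push_cast
    ring
  rw [sum_congr rfl e1, sum_comm]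
  have e5 : ∀ ξ ∈ L, ∑ n ∈ I, ∑ ξ' ∈ L, (((starRingEnd ℂ) (U z A B Q ξ / Q) * ee (-((i : ℝ) * ξ / Q))) *
        ((U z A B Q ξ' / Q) * ee ((j : ℝ) * ξ' / Q))) *
          (((z (n + i) * z (n + j) : ℝ) : ℂ) * ee ((((ξ' : ℝ) - ξ) / Q) * n)) =
      ∑ ξ' ∈ L, (((starRingEnd ℂ) (U z A B Q ξ / Q) * ee (-((i : ℝ) * ξ / Q))) *
        ((U z A B Q ξ' / Q) * ee ((j : ℝ) * ξ' / Q))) *
          ∑ n ∈ I, (((z (n + i) * z (n + j) : ℝ) : ℂ) * ee ((((ξ' : ℝ) - ξ) / Q) * n)) := by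
    intro ξ _
    rw [sum_comm]
    refine sum_congr rfl fun ξ' _ => ?_
    rw [mul_sum]
  rw [sum_congr rfl e5]
  refine (norm_sum_le _ _).trans ?_
  have h1 : ∀ ξ ∈ L, ‖∑ ξ' ∈ L, (((starRingEnd ℂ) (U z A B Q ξ / Q) * ee (-((i : ℝ) * ξ / Q))) *
        ((U z A B Q ξ' / Q) * ee ((j : ℝ) * ξ' / Q))) *
          ∑ n ∈ I, (((z (n + i) * z (n + j) : ℝ) : ℂ) * ee ((((ξ' : ℝ) - ξ) / Q) * n))‖ ≤
      ‖U z A B Q ξ / Q‖ * ((∑ ξ' ∈ L, ‖U z A B Q ξ' / Q‖) * D) := by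
    intro ξ _
    refine (norm_sum_le _ _).trans ?_
    rw [sum_mul, mul_sum]
    refine sum_le_sum fun ξ' _ => ?_
    rw [norm_mul, norm_mul, norm_mul, norm_mul, ee_norm, ee_norm, mul_one, mul_one, Complex.norm_conj, mul_assoc]
    exact mul_le_mul_of_nonneg_left (mul_le_mul_of_nonneg_left (hD _) (norm_nonneg _)) (norm_nonneg _)
  refine (sum_le_sum h1).trans ?_
  rw [← sum_mul, ← mul_assoc, sq]
  have h2 := sumU z A B Q L hz hQ hBA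
  have h3 : 0 ≤ ∑ ξ ∈ L, ‖U z A B Q ξ / Q‖ := sum_nonneg fun _ _ => norm_nonneg _
  exact mul_le_mul_of_nonneg_right (mul_le_mul h2 h2 h3 (Nat.cast_nonneg _)) hD0

theorem norm3 (x y w : ℂ) : ‖x + y + w‖ ^ 2 = ‖x‖ ^ 2 + ‖y‖ ^ 2 + ‖w‖ ^ 2 +
    2 * ((x * (starRingEnd ℂ) y).re + (y * (starRingEnd ℂ) w).re + (x * (starRingEnd ℂ) w).re) := by
  simp only [← Complex.normSq_eq_norm_sq, Complex.normSq_apply, Complex.add_re, Complex.add_im, Complex.mul_re,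
    Complex.conj_re, Complex.conj_im]
  ring

/-- `one third` -/
theorem third (hz : ∀ n, |z n| ≤ 1) (hQ : 0 < Q) (hAB : A + 2 ≤ B) (hBA : B - A ≤ Q) (hL : L ⊆ range Q) (D : ℝ)
    (h1 : ∀ α : ℝ, ∀ y ≤ B, ‖∑ n ∈ range y, ((z n * z (n + 1) : ℝ) : ℂ) * ee (α * n)‖ ≤ D)
    (h2 : ∀ α : ℝ, ∀ y ≤ B, ‖∑ n ∈ range y, ((z n * z (n + 2) : ℝ) : ℂ) * ee (α * n)‖ ≤ D) :
    en z A B Q L ≤ (B - A : ℕ) / 3 + 6 * L.card + 4 * L.card ^ 2 * D := by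
  set R : ℝ := (L.card : ℝ) with hR
  have hR0 : 0 ≤ R := Nat.cast_nonneg _
  have hD0 : 0 ≤ D := (norm_nonneg _).trans (h1 0 0 (by omega))
  set m : ℝ := en z A B Q L with hm
  have hm0 : 0 ≤ m := by
    rw [hm]
    unfold en
    positivity
  set x : ℕ → ℂ := fun n => (z n : ℂ) * (starRingEnd ℂ) (a z A B Q L n) with hx
  have hxn : ∀ n, ‖x n‖ ≤ ‖a z A B Q L n‖ := by
    intro n
    rw [hx]
    show ‖(z n : ℂ) * (starRingEnd ℂ) (a z A B Q L n)‖ ≤ _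
    rw [norm_mul, Complex.norm_conj, Complex.norm_real]
    exact mul_le_of_le_one_left (norm_nonneg _) (hz n)
  have hxR : ∀ n, ‖x n‖ ≤ R := fun n => (hxn n).trans (a_norm z A B Q L hz hQ hBA n)
  have hcorr : ∑ n ∈ Ico A B, x n = (m : ℂ) := corr z A B Q L hQ
  set I : Finset ℕ := Ico A (B - 2) with hI
  -- the shifted sums
  have hsh : ∀ i, i ≤ 2 → ‖∑ n ∈ I, x (n + i) - (m : ℂ)‖ ≤ 2 * R := by
    intro i hi
    have e1 : ∑ n ∈ I, x (n + i) = ∑ n ∈ Ico (A + i) (B - 2 + i), x n := by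
      rw [hI, sum_Ico_add' x A (B - 2) i]
    have e2 : ∑ n ∈ Ico A B, x n = ∑ n ∈ Ico A (A + i), x n + ∑ n ∈ Ico (A + i) (B - 2 + i), x n +
        ∑ n ∈ Ico (B - 2 + i) B, x n := by
      rw [sum_Ico_consecutive _ (by omega) (by omega), sum_Ico_consecutive _ (by omega) (by omega)]
    have e3 : ∑ n ∈ I, x (n + i) - (m : ℂ) =
        -(∑ n ∈ Ico A (A + i), x n + ∑ n ∈ Ico (B - 2 + i) B, x n) := by
      rw [← hcorr, e2, e1]
      ring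
    rw [e3, norm_neg]
    have h3 : ∀ s t : ℕ, ‖∑ n ∈ Ico s t, x n‖ ≤ (t - s : ℕ) * R := by
      intro s t
      refine (norm_sum_le _ _).trans ((sum_le_sum fun n _ => hxR n).trans (le_of_eq ?_))
      rw [sum_const, Nat.card_Ico, nsmul_eq_mul]
    refine (norm_add_le _ _).trans ((add_le_add (h3 _ _) (h3 _ _)).trans (le_of_eq ?_))
    rw [← add_mul, ← Nat.cast_add]
    congr 1
    have : (A + i - A + (B - (B - 2 + i))) = 2 := by omega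
    rw [this]
    norm_num
  set T : ℕ → ℂ := fun n => x n + x (n + 1) + x (n + 2) with hT
  have hTm : ‖∑ n ∈ I, T n - 3 * (m : ℂ)‖ ≤ 6 * R := by
    have e1 : ∑ n ∈ I, T n - 3 * (m : ℂ) = (∑ n ∈ I, x (n + 0) - (m : ℂ)) + (∑ n ∈ I, x (n + 1) - (m : ℂ)) +
        (∑ n ∈ I, x (n + 2) - (m : ℂ)) := by
      rw [hT]
      simp only [sum_add_distrib, add_zero]
      ring
    rw [e1]
    refine (norm_add₃_le).trans ?_
    have := hsh 0 (by omega)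
    have := hsh 1 (by omega)
    have := hsh 2 (by omega)
    linarith
  have hT1 : 3 * m - 6 * R ≤ ‖∑ n ∈ I, T n‖ := by
    have h3 := norm_sub_norm_le (3 * (m : ℂ)) (∑ n ∈ I, T n)
    rw [norm_sub_rev] at h3
    have h4 : ‖3 * (m : ℂ)‖ = 3 * m := by
      rw [norm_mul, Complex.norm_real, Real.norm_of_nonneg hm0]
      norm_num
    rw [h4] at h3
    linarith
  -- the squares
  have hen : ∀ i, i ≤ 2 → ∑ n ∈ I, ‖x (n + i)‖ ^ 2 ≤ m := by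
    intro i hi
    have e1 : ∑ n ∈ I, ‖x (n + i)‖ ^ 2 = ∑ n ∈ Ico (A + i) (B - 2 + i), ‖x n‖ ^ 2 := by
      rw [hI, sum_Ico_add' (fun n => ‖x n‖ ^ 2) A (B - 2) i]
    rw [e1, hm, ← a_energy z A B Q L hQ hL A]
    calc ∑ n ∈ Ico (A + i) (B - 2 + i), ‖x n‖ ^ 2 ≤ ∑ n ∈ Ico (A + i) (B - 2 + i), ‖a z A B Q L n‖ ^ 2 :=
          sum_le_sum fun n _ => pow_le_pow_left₀ (norm_nonneg _) (hxn n) 2
      _ ≤ ∑ n ∈ Ico A (A + Q), ‖a z A B Q L n‖ ^ 2 := by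
          apply sum_le_sum_of_subset_of_nonneg
          · intro n hn
            rw [mem_Ico] at hn ⊢
            omega
          · intro n _ _
            positivity
  have hcr : ∀ i j, (∀ α : ℝ, ‖∑ n ∈ I, ((z (n + i) * z (n + j) : ℝ) : ℂ) * ee (α * n)‖ ≤ 2 * D) →
      |∑ n ∈ I, (x (n + i) * (starRingEnd ℂ) (x (n + j))).re| ≤ R ^ 2 * (2 * D) := by
    intro i j h
    rw [← Complex.re_sum]
    refine (Complex.abs_re_le_norm _).trans ?_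
    exact cross z A B Q L hz hQ hBA i j I (2 * D) h
  have hdiff : ∀ (g : ℕ → ℂ) (s t : ℕ), s ≤ t → ‖∑ n ∈ range s, g n‖ ≤ D → ‖∑ n ∈ range t, g n‖ ≤ D →
      ‖∑ n ∈ Ico s t, g n‖ ≤ 2 * D := by
    intro g s t hst hs ht
    rw [sum_Ico_eq_sub _ hst]
    refine (norm_sub_le _ _).trans ?_
    linarith
  have hc01 := hcr 0 1 (fun α => by
    simp only [add_zero]
    rw [hI]
    exact hdiff _ _ _ (by omega) (h1 α A (by omega)) (h1 α (B - 2) (by omega)))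
  have hc02 := hcr 0 2 (fun α => by
    simp only [add_zero]
    rw [hI]
    exact hdiff _ _ _ (by omega) (h2 α A (by omega)) (h2 α (B - 2) (by omega)))
  have hc12 := hcr 1 2 (fun α => by
    have e1 : ∑ n ∈ I, ((z (n + 1) * z (n + 2) : ℝ) : ℂ) * ee (α * n) =
        ee (-α) * ∑ n ∈ Ico (A + 1) (B - 2 + 1), ((z n * z (n + 1) : ℝ) : ℂ) * ee (α * n) := by
      rw [hI, ← sum_Ico_add' (fun n : ℕ => ((z n * z (n + 1) : ℝ) : ℂ) * ee (α * n)) A (B - 2) 1, mul_sum]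
      refine sum_congr rfl fun n _ => ?_
      have e2 : α * ((n + 1 : ℕ) : ℝ) = α * n + α := by push_cast; ring
      rw [e2, ee_add, show n + 1 + 1 = n + 2 by ring]
      linear_combination (-(((z (n + 1) * z (n + 2) : ℝ) : ℂ) * ee (α * n))) * ee_neg_mul α
    rw [e1, norm_mul, ee_norm, one_mul]
    exact hdiff _ _ _ (by omega) (h1 α (A + 1) (by omega)) (h1 α (B - 2 + 1) (by omega)))
  have hTsq : ∑ n ∈ I, ‖T n‖ ^ 2 ≤ 3 * m + 12 * D * R ^ 2 := by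
    have e1 : ∑ n ∈ I, ‖T n‖ ^ 2 = ∑ n ∈ I, ‖x (n + 0)‖ ^ 2 + ∑ n ∈ I, ‖x (n + 1)‖ ^ 2 +
        ∑ n ∈ I, ‖x (n + 2)‖ ^ 2 + 2 * (∑ n ∈ I, (x (n + 0) * (starRingEnd ℂ) (x (n + 1))).re +
        ∑ n ∈ I, (x (n + 1) * (starRingEnd ℂ) (x (n + 2))).re +
        ∑ n ∈ I, (x (n + 0) * (starRingEnd ℂ) (x (n + 2))).re) := by
      rw [← sum_add_distrib, ← sum_add_distrib, ← sum_add_distrib, ← sum_add_distrib, mul_sum,
        ← sum_add_distrib]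
      refine sum_congr rfl fun n _ => ?_
      rw [hT]
      simp only [add_zero]
      exact norm3 _ _ _
    rw [e1]
    have := hen 0 (by omega)
    have := hen 1 (by omega)
    have := hen 2 (by omega)
    have := (abs_le.1 hc01).2
    have := (abs_le.1 hc02).2
    have := (abs_le.1 hc12).2
    nlinarith
  -- Cauchy-Schwarz
  set J : ℝ := ((B - A : ℕ) : ℝ) with hJ
  have hJ0 : 0 ≤ J := Nat.cast_nonneg _
  have hcs : ‖∑ n ∈ I, T n‖ ^ 2 ≤ J * (3 * m + 12 * D * R ^ 2) := by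
    have h3 : ‖∑ n ∈ I, T n‖ ≤ ∑ n ∈ I, ‖T n‖ := norm_sum_le _ _
    have h4 : (∑ n ∈ I, ‖T n‖) ^ 2 ≤ I.card * ∑ n ∈ I, ‖T n‖ ^ 2 := sq_sum_le_card_mul_sum_sq
    have h5 : (I.card : ℝ) ≤ J := by
      rw [hI, Nat.card_Ico, hJ, Nat.cast_le]
      omega
    calc ‖∑ n ∈ I, T n‖ ^ 2 ≤ (∑ n ∈ I, ‖T n‖) ^ 2 := pow_le_pow_left₀ (norm_nonneg _) h3 2
      _ ≤ I.card * ∑ n ∈ I, ‖T n‖ ^ 2 := h4
      _ ≤ J * (3 * m + 12 * D * R ^ 2) :=
          mul_le_mul h5 hTsq (sum_nonneg fun _ _ => by positivity) hJ0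
  by_contra hcon
  rw [not_le] at hcon
  have hm2 : 2 * R < m := by
    have : 0 ≤ 4 * R ^ 2 * D := by positivity
    have : 0 ≤ J / 3 := by positivity
    linarith
  have h6 : (3 * m - 6 * R) ^ 2 ≤ J * (3 * m + 12 * D * R ^ 2) :=
    (pow_le_pow_left₀ (by linarith) hT1 2).trans hcs
  have hJm : J ≤ 3 * m := by
    have : 0 ≤ 4 * R ^ 2 * D := by positivity
    linarith
  have h7 : J * (12 * D * R ^ 2) ≤ 3 * m * (12 * D * R ^ 2) := mul_le_mul_of_nonneg_right hJm (by positivity)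
  have h8 : 0 < m := by linarith
  -- 9 m² - 36 m R ≤ 3 J m + 36 m D R²
  have h9 : m * (9 * m - 36 * R - 3 * J - 36 * D * R ^ 2) ≤ 0 := by nlinarith [sq_nonneg R]
  have h10 : 9 * m - 36 * R - 3 * J - 36 * D * R ^ 2 ≤ 0 := by
    by_contra h
    rw [not_le] at h
    nlinarith [mul_pos h8 h]
  nlinarith

end

end Pool.Agent.P8H6.Chw
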