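import Mathlib
import Pool.Agent.P8H6.Chw.Third

/-!
# Almost all correlations are at most one third
-/

set_option autoImplicit false

namespace Pool.Agent.P8H6.Chw

open Finset
open Pool.Agent.Helper602.MK (ee)

section

variable (z : ℕ → ℝ) (A B A' B' Q : ℕ)

/-- Fourier expansion of a correlation -/
theorem corr_eq (hQ : 0 < Q) (k : ℕ) (hw : ∀ n ∈ Ico A B, n + k ∈ Ico A' B')
    (hQ' : ∀ n ∈ Ico A B, ∀ m ∈ Ico A' B', |(n : ℤ) + k - m| < Q) :
    ((∑ n ∈ Ico A B, z n * z (n + k) : ℝ) : ℂ) =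
      ∑ ξ ∈ range Q, ((starRingEnd ℂ) (U z A B Q ξ) * U z A' B' Q ξ / Q) * ee ((k : ℝ) * ξ / Q) := by
  have hQ0 : (Q : ℂ) ≠ 0 := by exact_mod_cast hQ.ne'
  have e1 : ∀ ξ ∈ range Q, ((starRingEnd ℂ) (U z A B Q ξ) * U z A' B' Q ξ / Q) * ee ((k : ℝ) * ξ / Q) =
      ∑ n ∈ Ico A B, ∑ m ∈ Ico A' B', ((z n : ℂ) * z m / Q) * ee ((ξ : ℝ) * (((n : ℤ) + k - m : ℤ) : ℝ) / Q) := by
    intro ξ _
    unfold U
    rw [map_sum, sum_mul_sum, sum_div, sum_mul]
    refine sum_congr rfl fun n _ => ?_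
    rw [sum_div, sum_mul]
    refine sum_congr rfl fun m _ => ?_
    rw [map_mul, Complex.conj_ofReal, ee_conj, neg_neg]
    have e2 : (ξ : ℝ) * (((n : ℤ) + k - m : ℤ) : ℝ) / Q = (ξ : ℝ) * n / Q + -((ξ : ℝ) * m / Q) + (k : ℝ) * ξ / Q := by
      push_cast; ring
    rw [e2, ee_add, ee_add]
    ring
  have e0 : ((∑ n ∈ Ico A B, z n * z (n + k) : ℝ) : ℂ) = ∑ n ∈ Ico A B, (z n : ℂ) * z (n + k) := by
    push_cast
    rfl
  rw [sum_congr rfl e1, sum_comm, e0]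
  refine sum_congr rfl fun n hn => ?_
  rw [sum_comm]
  rw [sum_eq_single (n + k)]
  · rw [← mul_sum, range_eq_Ico]
    have := orthZ Q hQ ((n : ℤ) + k - ((n + k : ℕ) : ℤ)) 0
    rw [zero_add] at this
    rw [this, if_pos (by push_cast; simp)]
    field_simp
  · intro m hm hne
    rw [← mul_sum, range_eq_Ico]
    have := orthZ Q hQ ((n : ℤ) + k - (m : ℤ)) 0
    rw [zero_add] at this
    rw [this, if_neg, mul_zero]
    intro hd
    have h1 := hQ' n hn m hm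
    have h2 := Int.eq_zero_of_abs_lt_dvd hd h1
    apply hne
    omega
  · intro h
    exact absurd (hw n hn) h

end

/-- few large correlations -/
theorem few (z : ℕ → ℝ) (hz : ∀ n, |z n| ≤ 1) (A B k₀ W Q : ℕ) (hQ : 0 < Q) (hAB : A + 2 ≤ B)
    (hBQ : B - A + W ≤ Q) (D T R e : ℝ) (hT : 0 < T) (he : 0 < e)
    (h1 : ∀ α : ℝ, ∀ y ≤ B + k₀ + W, ‖∑ n ∈ range y, ((z n * z (n + 1) : ℝ) : ℂ) * ee (α * n)‖ ≤ D)
    (h2 : ∀ α : ℝ, ∀ y ≤ B + k₀ + W, ‖∑ n ∈ range y, ((z n * z (n + 2) : ℝ) : ℂ) * ee (α * n)‖ ≤ D)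
    (hR : (Q : ℝ) * (B - A + W : ℕ) ≤ R * T ^ 2) :
    (((Ico k₀ (k₀ + W)).filter (fun k => ((B - A : ℕ) : ℝ) / 3 + W / 6 + 6 * R + 4 * R ^ 2 * D + e <
      |∑ n ∈ Ico A B, z n * z (n + k)|)).card : ℝ) * e ^ 2 ≤ T ^ 2 * (B - A : ℕ) := by
  classical
  have hD0 : 0 ≤ D := (norm_nonneg _).trans (h1 0 0 (Nat.zero_le _))
  have hQ' : (0 : ℝ) < Q := by exact_mod_cast hQ
  set u : ℕ → ℂ := U z A B Q with hu
  set v : ℕ → ℂ := U z (A + k₀) (B + k₀ + W) Q with hv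
  set L : Finset ℕ := (range Q).filter (fun ξ => T < ‖v ξ‖) with hL
  have hLs : L ⊆ range Q := filter_subset _ _
  have hvp : ∑ ξ ∈ range Q, ‖v ξ‖ ^ 2 ≤ Q * (B - A + W : ℕ) := by
    have := U_pars z (A + k₀) (B + k₀ + W) Q hz hQ (by omega)
    have e1 : B + k₀ + W - (A + k₀) = B - A + W := by omega
    rw [e1] at this
    exact this
  have hup : ∑ ξ ∈ range Q, ‖u ξ‖ ^ 2 ≤ Q * (B - A : ℕ) := U_pars z A B Q hz hQ (by omega)
  have hLR : (L.card : ℝ) ≤ R := by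
    have h3 : (L.card : ℝ) * T ^ 2 ≤ ∑ ξ ∈ L, ‖v ξ‖ ^ 2 := by
      rw [← nsmul_eq_mul]
      apply card_nsmul_le_sum
      intro ξ hξ
      rw [hL, mem_filter] at hξ
      exact pow_le_pow_left₀ hT.le hξ.2.le 2
    have h4 : ∑ ξ ∈ L, ‖v ξ‖ ^ 2 ≤ ∑ ξ ∈ range Q, ‖v ξ‖ ^ 2 :=
      sum_le_sum_of_subset_of_nonneg hLs fun _ _ _ => by positivity
    have h5 : (L.card : ℝ) * T ^ 2 ≤ R * T ^ 2 := by linarith
    exact le_of_mul_le_mul_right h5 (by positivity)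
  have hL0 : (0 : ℝ) ≤ L.card := Nat.cast_nonneg _
  have hR0 : 0 ≤ R := hL0.trans hLR
  have hmono : 6 * (L.card : ℝ) + 4 * (L.card : ℝ) ^ 2 * D ≤ 6 * R + 4 * R ^ 2 * D := by
    have : (L.card : ℝ) ^ 2 ≤ R ^ 2 := pow_le_pow_left₀ hL0 hLR 2
    have := mul_le_mul_of_nonneg_right this hD0
    linarith
  have hen1 : en z A B Q L ≤ (B - A : ℕ) / 3 + 6 * R + 4 * R ^ 2 * D := by
    have := third z A B Q L hz hQ hAB (by omega) hLs D (fun α y hy => h1 α y (by omega))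
      (fun α y hy => h2 α y (by omega))
    linarith
  have hen2 : en z (A + k₀) (B + k₀ + W) Q L ≤ ((B - A : ℕ) + W) / 3 + 6 * R + 4 * R ^ 2 * D := by
    have := third z (A + k₀) (B + k₀ + W) Q L hz hQ (by omega) (by omega) hLs D h1 h2
    have e1 : B + k₀ + W - (A + k₀) = B - A + W := by omega
    rw [e1] at this
    push_cast at this
    linarith
  -- the two parts
  set c : ℕ → ℂ := fun ξ => (starRingEnd ℂ) (u ξ) * v ξ / Q with hc
  have hcn : ∀ ξ, ‖c ξ‖ = ‖u ξ‖ * ‖v ξ‖ / Q := by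
    intro ξ
    rw [hc]
    simp only
    rw [norm_div, norm_mul, Complex.norm_conj, Complex.norm_natCast]
  have hlarge : ∀ k : ℕ, ‖∑ ξ ∈ L, c ξ * ee ((k : ℝ) * ξ / Q)‖ ≤
      ((B - A : ℕ) : ℝ) / 3 + W / 6 + 6 * R + 4 * R ^ 2 * D := by
    intro k
    have h3 : ‖∑ ξ ∈ L, c ξ * ee ((k : ℝ) * ξ / Q)‖ ≤ ∑ ξ ∈ L, (‖u ξ‖ ^ 2 / Q + ‖v ξ‖ ^ 2 / Q) / 2 := by
      refine (norm_sum_le _ _).trans (sum_le_sum fun ξ _ => ?_)
      rw [norm_mul, ee_norm, mul_one, hcn, ← add_div, div_div, div_le_div_iff₀ hQ' (by positivity)]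
      nlinarith [sq_nonneg (‖u ξ‖ - ‖v ξ‖)]
    have h4 : ∑ ξ ∈ L, (‖u ξ‖ ^ 2 / Q + ‖v ξ‖ ^ 2 / Q) / 2 =
        (en z A B Q L + en z (A + k₀) (B + k₀ + W) Q L) / 2 := by
      unfold en
      rw [← sum_div, sum_add_distrib, sum_div, sum_div]
    rw [h4] at h3
    linarith
  set S : Finset ℕ := range Q \ L with hS
  have hsmall : ∑ k ∈ Ico k₀ (k₀ + Q), ‖∑ ξ ∈ S, c ξ * ee ((k : ℝ) * ξ / Q)‖ ^ 2 ≤ T ^ 2 * (B - A : ℕ) := by
    rw [pars Q hQ S (fun s hs s' hs' => inj_Ico (A := 0) (B := Q) (by omega) s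
      (by rw [mem_Ico]; exact ⟨Nat.zero_le _, mem_range.1 (mem_sdiff.1 hs).1⟩) s'
      (by rw [mem_Ico]; exact ⟨Nat.zero_le _, mem_range.1 (mem_sdiff.1 hs').1⟩))]
    have h3 : ∀ ξ ∈ S, ‖c ξ‖ ^ 2 ≤ T ^ 2 / Q ^ 2 * ‖u ξ‖ ^ 2 := by
      intro ξ hξ
      have h4 : ‖v ξ‖ ≤ T := by
        rw [hS, mem_sdiff, hL, mem_filter, not_and, not_lt] at hξ
        exact hξ.2 hξ.1
      rw [hcn, div_pow, mul_pow]
      have h5 : ‖v ξ‖ ^ 2 ≤ T ^ 2 := pow_le_pow_left₀ (norm_nonneg _) h4 2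
      rw [div_mul_eq_mul_div]
      apply div_le_div_of_nonneg_right _ (by positivity)
      rw [mul_comm]
      exact mul_le_mul_of_nonneg_right h5 (by positivity)
    have h6 : ∑ ξ ∈ S, ‖c ξ‖ ^ 2 ≤ T ^ 2 / Q ^ 2 * (Q * (B - A : ℕ)) := by
      refine (sum_le_sum h3).trans ?_
      rw [← mul_sum]
      apply mul_le_mul_of_nonneg_left _ (by positivity)
      refine le_trans (sum_le_sum_of_subset_of_nonneg sdiff_subset fun _ _ _ => by positivity) hup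
    refine (mul_le_mul_of_nonneg_left h6 hQ'.le).trans (le_of_eq ?_)
    field_simp
  -- the exceptional `k`
  set X : Finset ℕ := (Ico k₀ (k₀ + W)).filter (fun k => ((B - A : ℕ) : ℝ) / 3 + W / 6 + 6 * R + 4 * R ^ 2 * D + e <
      |∑ n ∈ Ico A B, z n * z (n + k)|) with hX
  have hXk : ∀ k ∈ X, e ^ 2 ≤ ‖∑ ξ ∈ S, c ξ * ee ((k : ℝ) * ξ / Q)‖ ^ 2 := by
    intro k hk
    rw [hX, mem_filter, mem_Ico] at hk
    have h3 := corr_eq z A B (A + k₀) (B + k₀ + W) Q hQ k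
      (by intro n hn; rw [mem_Ico] at hn ⊢; omega)
      (by intro n hn m hm; rw [mem_Ico] at hn hm; rw [abs_lt]; constructor <;> omega)
    have h4 : ∑ ξ ∈ range Q, ((starRingEnd ℂ) (u ξ) * v ξ / Q) * ee ((k : ℝ) * ξ / Q) =
        ∑ ξ ∈ S, c ξ * ee ((k : ℝ) * ξ / Q) + ∑ ξ ∈ L, c ξ * ee ((k : ℝ) * ξ / Q) := by
      rw [hS, sum_sdiff hLs]
    rw [h4] at h3
    have h5 : |∑ n ∈ Ico A B, z n * z (n + k)| ≤ ‖∑ ξ ∈ S, c ξ * ee ((k : ℝ) * ξ / Q)‖ +
        ‖∑ ξ ∈ L, c ξ * ee ((k : ℝ) * ξ / Q)‖ := by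
      rw [← Real.norm_eq_abs, ← Complex.norm_real, h3]
      exact norm_add_le _ _
    have h6 := hlarge k
    exact pow_le_pow_left₀ he.le (by linarith [hk.2]) 2
  calc (X.card : ℝ) * e ^ 2 ≤ ∑ k ∈ X, ‖∑ ξ ∈ S, c ξ * ee ((k : ℝ) * ξ / Q)‖ ^ 2 := by
        rw [← nsmul_eq_mul]
        exact card_nsmul_le_sum _ _ _ hXk
    _ ≤ ∑ k ∈ Ico k₀ (k₀ + Q), ‖∑ ξ ∈ S, c ξ * ee ((k : ℝ) * ξ / Q)‖ ^ 2 := by
        apply sum_le_sum_of_subset_of_nonneg
        · intro k hk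
          rw [hX, mem_filter, mem_Ico] at hk
          rw [mem_Ico]
          omega
        · intro _ _ _
          positivity
    _ ≤ T ^ 2 * (B - A : ℕ) := hsmall

/-- **almost all correlations are at most one third** -/
theorem aa (z : ℕ → ℝ) (hz : ∀ n, |z n| ≤ 1) (E : Set ℕ)
    (hE : ∀ η : ℝ, 0 < η → ∃ N₀ : ℕ, ∀ N : ℕ, N₀ ≤ N → N ∉ E → ∀ α : ℝ, ∀ y ≤ 5 * N,
      ‖∑ n ∈ range y, ((z n * z (n + 1) : ℝ) : ℂ) * ee (α * n)‖ ≤ η * N ∧
      ‖∑ n ∈ range y, ((z n * z (n + 2) : ℝ) : ℂ) * ee (α * n)‖ ≤ η * N) (ε : ℝ) (hε : 0 < ε) :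
    ∃ N₀ : ℕ, ∀ N : ℕ, N₀ ≤ N → N ∉ E → ∃ K : Finset ℕ, (K.card : ℝ) ≤ ε * N ∧ ∀ k ≤ N, k ∉ K →
      ∀ Y X : ℕ, Y ≤ X → X ≤ 3 * N → |∑ n ∈ Ico Y X, z n * z (n + k)| ≤ ((X : ℝ) - Y) / 3 + ε * N := by
  classical
  obtain ⟨G, hG'⟩ := exists_nat_gt (24 / ε + 4)
  have hG : 24 / ε < G := by linarith
  have hG4 : 4 ≤ G := by
    have h1 : (4 : ℝ) < G := by
      have : 0 < 24 / ε := by positivity
      linarith
    exact_mod_cast h1.le
  have hG0 : (0 : ℝ) < G := lt_trans (by positivity) hG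
  have hG1 : 1 ≤ G := by
    have : 0 < G := by exact_mod_cast hG0
    omega
  set n₃ : ℝ := (3 * G + 1 : ℕ) * ((3 * G + 1 : ℕ) * (G + 2 : ℕ)) with hn₃
  have hn₃0 : 0 < n₃ := by rw [hn₃]; positivity
  set τ : ℝ := ε * Real.sqrt (ε / (80 * n₃)) with hτ
  have hτ0 : 0 < τ := by rw [hτ]; positivity
  have hτ2 : τ ^ 2 = ε ^ 3 / (80 * n₃) := by
    rw [hτ, mul_pow, Real.sq_sqrt (by positivity)]
    ring
  set R : ℝ := 25 / τ ^ 2 with hR
  have hR0 : 0 < R := by rw [hR]; positivity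
  set η : ℝ := ε / (32 * R ^ 2) with hη
  have hη0 : 0 < η := by rw [hη]; positivity
  obtain ⟨N₁, hN₁⟩ := hE η hη0
  obtain ⟨N₂, hN₂⟩ := exists_nat_gt ((48 * R + 24) / ε)
  refine ⟨N₁ + N₂ + 16 * G + 16, fun N hN hNE => ?_⟩
  have hNpos : (0 : ℝ) < N := by exact_mod_cast (by omega : 0 < N)
  have hNR : 48 * R + 24 ≤ ε * N := by
    have h1 : (48 * R + 24) / ε < N := lt_of_lt_of_le hN₂ (by exact_mod_cast (by omega : N₂ ≤ N))
    rw [div_lt_iff₀ hε] at h1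
    linarith
  set s : ℕ := N / G + 1 with hs
  have hs0 : 0 < s := Nat.succ_pos _
  have hs2 : 2 ≤ s := by
    have : 1 ≤ N / G := (Nat.one_le_div_iff (by omega)).2 (by omega)
    omega
  have hGs : N < G * s := by
    rw [hs]
    exact Nat.lt_mul_div_succ N (by omega)
  have hsN : s ≤ N / G + 1 := le_rfl
  have hGs2 : G * s ≤ N + G := by
    rw [hs, mul_add, mul_one]
    exact Nat.add_le_add_right (Nat.mul_div_le N G) G
  have hs3 : (s : ℝ) ≤ ε * N / 24 + 1 := by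
    have h1 : ((G * s : ℕ) : ℝ) ≤ N + G := by exact_mod_cast hGs2
    push_cast at h1
    have h2 : (s : ℝ) ≤ N / G + 1 := by
      rw [← sub_nonneg] at h1 ⊢
      have h3 : (N : ℝ) / G + 1 - s = ((N : ℝ) + G - G * s) / G := by field_simp
      rw [h3]
      positivity
    have h3 : (N : ℝ) / G ≤ ε * N / 24 := by
      rw [div_lt_iff₀ hε] at hG
      rw [div_le_div_iff₀ hG0 (by norm_num)]
      nlinarith
    linarith
  have hsN : s ≤ N := by
    have h1 : G * (N / G) ≤ N := Nat.mul_div_le N G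
    have h2 : 4 * (N / G) ≤ G * (N / G) := Nat.mul_le_mul_right _ hG4
    omega
  set D : ℝ := η * N with hD
  set T : ℝ := τ * N with hT
  have hT0 : 0 < T := by rw [hT]; positivity
  set e : ℝ := ε * N / 4 with he
  have he0 : 0 < e := by rw [he]; positivity
  -- the exceptional sets
  set F : ℕ × ℕ × ℕ → Finset ℕ := fun t => (Ico (t.2.2 * s) (t.2.2 * s + s)).filter (fun k =>
    ((t.2.1 * s - t.1 * s : ℕ) : ℝ) / 3 + s / 6 + 6 * R + 4 * R ^ 2 * D + e <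
      |∑ n ∈ Ico (t.1 * s) (t.2.1 * s), z n * z (n + k)|) with hF
  set 𝒯 : Finset (ℕ × ℕ × ℕ) := ((range (3 * G + 1)) ×ˢ (range (3 * G + 1)) ×ˢ (range (G + 2))).filter
    (fun t => t.1 < t.2.1 ∧ t.2.1 * s ≤ 3 * N ∧ t.2.2 * s ≤ N) with h𝒯
  have hFc : ∀ t ∈ 𝒯, ((F t).card : ℝ) ≤ ε * N / n₃ := by
    intro t ht
    rw [h𝒯, mem_filter] at ht
    obtain ⟨-, ht1, ht2, ht3⟩ := ht
    have hAB : t.1 * s + 2 ≤ t.2.1 * s := by
      have : (t.1 + 1) * s ≤ t.2.1 * s := Nat.mul_le_mul_right s ht1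
      rw [add_mul, one_mul] at this
      omega
    have hy : ∀ y ≤ t.2.1 * s + t.2.2 * s + s, y ≤ 5 * N := by
      intro y hy
      omega
    have h1 := few z hz (t.1 * s) (t.2.1 * s) (t.2.2 * s) s (5 * N) (by omega) hAB (by omega) D T R e hT0 he0
      (fun α y h => (hN₁ N (by omega) hNE α y (hy y h)).1) (fun α y h => (hN₁ N (by omega) hNE α y (hy y h)).2)
      (by
        have h2 : ((t.2.1 * s - t.1 * s + s : ℕ) : ℝ) ≤ 5 * N := by
          have : t.2.1 * s - t.1 * s + s ≤ 5 * N := by omega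
          exact_mod_cast this
        have h3 : R * T ^ 2 = 25 * (N : ℝ) ^ 2 := by
          rw [hR, hT]
          field_simp
        rw [h3]
        push_cast at h2 ⊢
        nlinarith)
    have h2 : ((t.2.1 * s - t.1 * s : ℕ) : ℝ) ≤ 3 * N := by
      have : t.2.1 * s - t.1 * s ≤ 3 * N := by omega
      exact_mod_cast this
    have h3 : ((F t).card : ℝ) * e ^ 2 ≤ T ^ 2 * (3 * N) :=
      h1.trans (mul_le_mul_of_nonneg_left h2 (by positivity))
    have h4 : T ^ 2 * (3 * N) ≤ ε * N / n₃ * e ^ 2 := by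
      rw [hT, he, mul_pow, hτ2]
      have h5 : ε ^ 3 / (80 * n₃) * (N : ℝ) ^ 2 * (3 * N) = (ε ^ 3 * N ^ 3 / n₃) * (3 / 80) := by
        field_simp
      have h6 : ε * N / n₃ * (ε * N / 4) ^ 2 = (ε ^ 3 * N ^ 3 / n₃) * (1 / 16) := by
        field_simp
        ring
      rw [h5, h6]
      apply mul_le_mul_of_nonneg_left (by norm_num) (by positivity)
    exact le_of_mul_le_mul_right (h3.trans h4) (by positivity)
  refine ⟨𝒯.biUnion F, ?_, ?_⟩
  · have h1 : ((𝒯.biUnion F).card : ℝ) ≤ ∑ t ∈ 𝒯, ((F t).card : ℝ) := by exact_mod_cast card_biUnion_le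
    have h2 : ∑ t ∈ 𝒯, ((F t).card : ℝ) ≤ 𝒯.card * (ε * N / n₃) := by
      rw [← nsmul_eq_mul]
      exact sum_le_card_nsmul _ _ _ hFc
    have h3 : (𝒯.card : ℝ) ≤ n₃ := by
      have h4 : 𝒯.card ≤ (3 * G + 1) * ((3 * G + 1) * (G + 2)) := by
        rw [h𝒯]
        refine (card_filter_le _ _).trans (le_of_eq ?_)
        rw [card_product, card_product, card_range, card_range]
      rw [hn₃]
      exact_mod_cast h4
    calc ((𝒯.biUnion F).card : ℝ) ≤ 𝒯.card * (ε * N / n₃) := h1.trans h2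
      _ ≤ n₃ * (ε * N / n₃) := mul_le_mul_of_nonneg_right h3 (by positivity)
      _ = ε * N := by field_simp
  · intro k hk hkK Y X hYX hX
    have hzz : ∀ n, |z n * z (n + k)| ≤ 1 := by
      intro n
      rw [abs_mul]
      exact mul_le_one₀ (hz _) (abs_nonneg _) (hz _)
    have hint : ∀ a b : ℕ, a ≤ b → |∑ n ∈ Ico a b, z n * z (n + k)| ≤ (b : ℝ) - a := by
      intro a b hab
      refine (abs_sum_le_sum_abs _ _).trans ((sum_le_sum fun n _ => hzz n).trans (le_of_eq ?_))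
      rw [sum_const, Nat.card_Ico, nsmul_eq_mul, mul_one, Nat.cast_sub hab]
    have hXd1 : X / s * s ≤ X := Nat.div_mul_le_self X s
    have hXd2 : X < X / s * s + s := Nat.lt_div_mul_add hs0
    have hYd1 : Y / s * s ≤ Y := Nat.div_mul_le_self Y s
    have hYd2 : Y < Y / s * s + s := Nat.lt_div_mul_add hs0
    have hkd1 : k / s * s ≤ k := Nat.div_mul_le_self k s
    have hkd2 : k < k / s * s + s := Nat.lt_div_mul_add hs0
    have hij : Y / s ≤ X / s := Nat.div_le_div_right hYX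
    have hXY : (Y : ℝ) ≤ X := by exact_mod_cast hYX
    have hεN0 : 0 < ε * N := by positivity
    rcases hij.eq_or_lt with heq | hlt
    · have h1 := hint Y X hYX
      have h2 : (X : ℝ) - Y ≤ s := by
        rw [← heq] at hXd2
        have : X ≤ Y + s := by omega
        have : (X : ℝ) ≤ Y + s := by exact_mod_cast this
        linarith
      nlinarith
    · have hj : X / s < 3 * G + 1 := by
        by_contra hcon
        rw [not_lt] at hcon
        have h1 : (3 * G + 1) * s ≤ X / s * s := Nat.mul_le_mul_right s hcon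
        have h2 : 3 * (G * s) ≤ (3 * G + 1) * s := by
          rw [add_mul, mul_assoc]
          omega
        omega
      have hl : k / s < G + 2 := by
        by_contra hcon
        rw [not_lt] at hcon
        have h1 : (G + 2) * s ≤ k / s * s := Nat.mul_le_mul_right s hcon
        have h2 : G * s ≤ (G + 2) * s := Nat.mul_le_mul_right s (by omega)
        omega
      have ht : (Y / s, X / s, k / s) ∈ 𝒯 := by
        rw [h𝒯, mem_filter, mem_product, mem_product, mem_range, mem_range, mem_range]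
        refine ⟨⟨?_, ?_, ?_⟩, ?_, ?_, ?_⟩
        · show Y / s < 3 * G + 1
          omega
        · exact hj
        · exact hl
        · exact hlt
        · show X / s * s ≤ 3 * N
          omega
        · show k / s * s ≤ N
          omega
      have h1 : k ∉ F (Y / s, X / s, k / s) := fun h => hkK (mem_biUnion.2 ⟨_, ht, h⟩)
      rw [hF] at h1
      simp only [mem_filter, mem_Ico, not_and, not_lt] at h1
      have h2 := h1 ⟨hkd1, hkd2⟩
      have hgY : Y ≤ X / s * s := by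
        have : (Y / s + 1) * s ≤ X / s * s := Nat.mul_le_mul_right s hlt
        rw [add_mul, one_mul] at this
        omega
      have e1 : ∑ n ∈ Ico Y X, z n * z (n + k) = ∑ n ∈ Ico (Y / s * s) (X / s * s), z n * z (n + k) -
          ∑ n ∈ Ico (Y / s * s) Y, z n * z (n + k) + ∑ n ∈ Ico (X / s * s) X, z n * z (n + k) := by
        rw [← sum_Ico_consecutive _ hYd1 hgY, ← sum_Ico_consecutive _ hgY hXd1]
        ring
      have h3 := hint _ _ hYd1
      have h4 := hint _ _ hXd1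
      have h5 : (Y : ℝ) - (Y / s * s : ℕ) ≤ s := by
        have : (Y : ℝ) ≤ (Y / s * s : ℕ) + s := by exact_mod_cast hYd2.le
        linarith
      have h6 : (X : ℝ) - (X / s * s : ℕ) ≤ s := by
        have : (X : ℝ) ≤ (X / s * s : ℕ) + s := by exact_mod_cast hXd2.le
        linarith
      have h7 : ((X / s * s - Y / s * s : ℕ) : ℝ) ≤ X - Y + s := by
        rw [Nat.cast_sub (hYd1.trans hgY)]
        have : ((X / s * s : ℕ) : ℝ) ≤ X := by exact_mod_cast hXd1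
        linarith
      have h8 : 4 * R ^ 2 * D = ε * N / 8 := by
        rw [hD, hη]
        field_simp
        ring
      rw [h8, he] at h2
      rw [e1]
      refine (abs_add_le _ _).trans ?_
      have h9 := abs_sub (∑ n ∈ Ico (Y / s * s) (X / s * s), z n * z (n + k))
        (∑ n ∈ Ico (Y / s * s) Y, z n * z (n + k))
      push_cast at h2 h3 h4 h5 h6 h7 ⊢
      linarith

end Pool.Agent.P8H6.Chw
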