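import Mathlib
import Pool.Agent.P8H6.Chw.Aa

/-!
# Correlations of several points, in quadratic mean over the shifts
-/

set_option autoImplicit false

namespace Pool.Agent.P8H6.Chw

open Finset
open Pool.Agent.Helper602.MK (ee)

/-- pairs with a difference in `K` -/
theorem pairs_card (K : Finset ℕ) (Y X : ℕ) :
    ((((Ioc Y X) ×ˢ (Ioc Y X)).filter (fun t => (t.2 - t.1) + (t.1 - t.2) ∈ K)).card : ℝ) ≤
      2 * K.card * (X - Y : ℕ) := by
  classical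
  have h1 : ((Ioc Y X) ×ˢ (Ioc Y X)).filter (fun t => (t.2 - t.1) + (t.1 - t.2) ∈ K) ⊆
      ((Ioc Y X) ×ˢ K).image (fun t => (t.1, t.1 + t.2)) ∪ ((Ioc Y X) ×ˢ K).image (fun t => (t.1 + t.2, t.1)) := by
    intro t ht
    rw [mem_filter, mem_product] at ht
    obtain ⟨⟨h1, h2⟩, h3⟩ := ht
    rw [mem_union, mem_image, mem_image]
    rcases le_total t.1 t.2 with h | h
    · left
      refine ⟨(t.1, (t.2 - t.1) + (t.1 - t.2)), mem_product.2 ⟨h1, h3⟩, ?_⟩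
      apply Prod.ext
      · rfl
      · show t.1 + ((t.2 - t.1) + (t.1 - t.2)) = t.2
        omega
    · right
      refine ⟨(t.2, (t.2 - t.1) + (t.1 - t.2)), mem_product.2 ⟨h2, h3⟩, ?_⟩
      apply Prod.ext
      · show t.2 + ((t.2 - t.1) + (t.1 - t.2)) = t.1
        omega
      · rfl
  have h2 := (card_le_card h1).trans (card_union_le _ _)
  have h3 : (((Ioc Y X) ×ˢ K).image (fun t => (t.1, t.1 + t.2))).card ≤ (X - Y) * K.card := by
    refine card_image_le.trans (le_of_eq ?_)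
    rw [card_product, Nat.card_Ioc]
  have h4 : (((Ioc Y X) ×ˢ K).image (fun t => (t.1 + t.2, t.1))).card ≤ (X - Y) * K.card := by
    refine card_image_le.trans (le_of_eq ?_)
    rw [card_product, Nat.card_Ioc]
  have h5 : (((Ioc Y X) ×ˢ (Ioc Y X)).filter (fun t => (t.2 - t.1) + (t.1 - t.2) ∈ K)).card ≤
      2 * K.card * (X - Y) := by
    refine h2.trans ((Nat.add_le_add h3 h4).trans (le_of_eq ?_))
    ring
  exact_mod_cast h5

/-- the mean square as a double sum -/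
theorem expand (z : ℕ → ℝ) (r H : ℕ) (M : Fin r → ℕ) (ξ : ℕ → ℂ) (hξ : ∀ n, ‖ξ n‖ ≤ 1) (I : Finset ℕ) :
    ∑ k ∈ Fintype.piFinset (fun _ : Fin r => range H), ‖∑ n ∈ I, ξ n * ((∏ i, z (n + M i + k i) : ℝ) : ℂ)‖ ^ 2 ≤
      ∑ t ∈ I ×ˢ I, ∏ i, |∑ j ∈ range H, z (t.1 + M i + j) * z (t.2 + M i + j)| := by
  have h1 : ((∑ k ∈ Fintype.piFinset (fun _ : Fin r => range H),
      ‖∑ n ∈ I, ξ n * ((∏ i, z (n + M i + k i) : ℝ) : ℂ)‖ ^ 2 : ℝ) : ℂ) =
      ∑ t ∈ I ×ˢ I, ξ t.1 * (starRingEnd ℂ) (ξ t.2) *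
        ((∏ i, ∑ j ∈ range H, z (t.1 + M i + j) * z (t.2 + M i + j) : ℝ) : ℂ) := by
    have e1 : ∀ k ∈ Fintype.piFinset (fun _ : Fin r => range H),
        ((‖∑ n ∈ I, ξ n * ((∏ i, z (n + M i + k i) : ℝ) : ℂ)‖ ^ 2 : ℝ) : ℂ) =
        ∑ t ∈ I ×ˢ I, ξ t.1 * (starRingEnd ℂ) (ξ t.2) *
          ((∏ i, z (t.1 + M i + k i) * z (t.2 + M i + k i) : ℝ) : ℂ) := by
      intro k _
      rw [sum_product]
      have e2 : ((‖∑ n ∈ I, ξ n * ((∏ i, z (n + M i + k i) : ℝ) : ℂ)‖ ^ 2 : ℝ) : ℂ) =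
          (∑ n ∈ I, ξ n * ((∏ i, z (n + M i + k i) : ℝ) : ℂ)) *
            (starRingEnd ℂ) (∑ n ∈ I, ξ n * ((∏ i, z (n + M i + k i) : ℝ) : ℂ)) := by
        rw [Complex.mul_conj, Complex.normSq_eq_norm_sq]
      rw [e2, map_sum, sum_mul_sum]
      refine sum_congr rfl fun n _ => sum_congr rfl fun m _ => ?_
      rw [map_mul, Complex.conj_ofReal, prod_mul_distrib]
      push_cast
      ring
    push_cast at e1 ⊢
    rw [sum_congr rfl e1, sum_comm]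
    refine sum_congr rfl fun t _ => ?_
    rw [← mul_sum]
    congr 1
    rw [prod_univ_sum]
  have h2 : ‖((∑ k ∈ Fintype.piFinset (fun _ : Fin r => range H),
      ‖∑ n ∈ I, ξ n * ((∏ i, z (n + M i + k i) : ℝ) : ℂ)‖ ^ 2 : ℝ) : ℂ)‖ =
      ∑ k ∈ Fintype.piFinset (fun _ : Fin r => range H),
      ‖∑ n ∈ I, ξ n * ((∏ i, z (n + M i + k i) : ℝ) : ℂ)‖ ^ 2 := by
    rw [Complex.norm_real, Real.norm_of_nonneg]
    exact sum_nonneg fun _ _ => by positivity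
  rw [← h2, h1]
  refine (norm_sum_le _ _).trans (sum_le_sum fun t _ => ?_)
  rw [norm_mul, norm_mul, Complex.norm_conj, Complex.norm_real, Real.norm_eq_abs, abs_prod]
  have h3 : ‖ξ t.1‖ * ‖ξ t.2‖ ≤ 1 := mul_le_one₀ (hξ _) (norm_nonneg _) (hξ _)
  exact mul_le_of_le_one_left (prod_nonneg fun _ _ => abs_nonneg _) h3

/-- continuity of powers -/
theorem pow_cont (r : ℕ) (ε : ℝ) (hε : 0 < ε) : ∃ κ : ℝ, 0 < κ ∧ (1 / 3 + κ) ^ r ≤ (1 / 3) ^ r + ε := by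
  have h1 : Filter.Tendsto (fun κ : ℝ => (1 / 3 + κ) ^ r) (nhds 0) (nhds ((1 / 3 + 0) ^ r)) :=
    ((continuous_const.add continuous_id).pow r).tendsto 0
  rw [add_zero] at h1
  have h2 := (h1.eventually_lt_const (show (1 / 3 : ℝ) ^ r < (1 / 3) ^ r + ε by linarith))
  obtain ⟨δ, hδ, h3⟩ := Metric.eventually_nhds_iff.1 h2
  refine ⟨δ / 2, by positivity, (h3 ?_).le⟩
  rw [Real.dist_eq, sub_zero, abs_of_pos (by positivity)]
  linarith

/-- **correlations of `r` points, in quadratic mean over the shifts** -/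
theorem mom (z : ℕ → ℝ) (hz : ∀ n, |z n| ≤ 1) (E : Set ℕ)
    (hE : ∀ η : ℝ, 0 < η → ∃ N₀ : ℕ, ∀ N : ℕ, N₀ ≤ N → N ∉ E → ∀ α : ℝ, ∀ y ≤ 5 * N,
      ‖∑ n ∈ range y, ((z n * z (n + 1) : ℝ) : ℂ) * ee (α * n)‖ ≤ η * N ∧
      ‖∑ n ∈ range y, ((z n * z (n + 2) : ℝ) : ℂ) * ee (α * n)‖ ≤ η * N) (r : ℕ) (ε : ℝ) (hε : 0 < ε) :
    ∃ N₀ : ℕ, ∀ N : ℕ, N₀ ≤ N → N ∉ E → ∀ H : ℕ, ε * N ≤ H → H ≤ N → ∀ M : Fin r → ℕ, (∀ i, M i ≤ N) →
      ∀ ξ : ℕ → ℂ, (∀ n, ‖ξ n‖ ≤ 1) → ∀ Y X : ℕ, Y ≤ X → X ≤ N →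
        ∑ k ∈ Fintype.piFinset (fun _ : Fin r => range H),
          ‖∑ n ∈ Ioc Y X, ξ n * ((∏ i, z (n + M i + k i) : ℝ) : ℂ)‖ ^ 2 ≤
            (H : ℝ) ^ r * (((X : ℝ) - Y) ^ 2 / 3 ^ r + ε * N ^ 2) := by
  classical
  obtain ⟨κ, hκ, hκr⟩ := pow_cont r (ε / 2) (by positivity)
  set ε' : ℝ := min (ε / 4) (κ * ε) with hε'
  have hε'0 : 0 < ε' := lt_min (by positivity) (by positivity)
  obtain ⟨N₀, h0⟩ := aa z hz E hE ε' hε'0
  refine ⟨N₀ + 1, fun N hN hNE H hH1 hH2 M hM ξ hξ Y X hYX hX => ?_⟩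
  have hN0 : (0 : ℝ) < N := by exact_mod_cast (by omega : 0 < N)
  have hHpos : (0 : ℝ) < H := lt_of_lt_of_le (by positivity) hH1
  obtain ⟨K, hK, h1⟩ := h0 N (by omega) hNE
  refine (expand z r H M ξ hξ (Ioc Y X)).trans ?_
  have htriv : ∀ t : ℕ × ℕ, ∀ i, |∑ j ∈ range H, z (t.1 + M i + j) * z (t.2 + M i + j)| ≤ H := by
    intro t i
    refine (abs_sum_le_sum_abs _ _).trans ((sum_le_sum (g := fun _ => (1 : ℝ)) fun j _ => ?_).trans (le_of_eq ?_))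
    · rw [abs_mul]
      exact mul_le_one₀ (hz _) (abs_nonneg _) (hz _)
    · rw [sum_const, card_range, nsmul_eq_mul, mul_one]
  have hkey : ∀ n m : ℕ, n ≤ m → n ≤ N → m ≤ N → (m - n) ∉ K → ∀ i,
      |∑ j ∈ range H, z (n + M i + j) * z (m + M i + j)| ≤ H * (1 / 3 + κ) := by
    intro n m hnm hn hm hd i
    have h2 := h1 (m - n) (by omega) hd (n + M i) (n + M i + H) (by omega) (by
      have := hM i
      omega)
    have e1 : ∑ j ∈ range H, z (n + M i + j) * z (m + M i + j) =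
        ∑ j ∈ Ico (n + M i) (n + M i + H), z j * z (j + (m - n)) := by
      rw [sum_Ico_eq_sum_range, Nat.add_sub_cancel_left]
      refine sum_congr rfl fun j _ => ?_
      congr 2
      omega
    rw [e1]
    refine h2.trans ?_
    have h3 : ε' * N ≤ κ * H := by
      calc ε' * N ≤ κ * ε * N := mul_le_mul_of_nonneg_right (min_le_right _ _) hN0.le
        _ = κ * (ε * N) := by ring
        _ ≤ κ * H := mul_le_mul_of_nonneg_left hH1 hκ.le
    push_cast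
    linarith
  set P : Finset (ℕ × ℕ) := (Ioc Y X) ×ˢ (Ioc Y X) with hP
  rw [← sum_filter_add_sum_filter_not P (fun t => (t.2 - t.1) + (t.1 - t.2) ∈ K)]
  have hJ : ((X - Y : ℕ) : ℝ) = X - Y := by
    rw [Nat.cast_sub hYX]
  have hJ0 : (0 : ℝ) ≤ X - Y := by
    rw [← hJ]
    exact Nat.cast_nonneg _
  have hJN : (X : ℝ) - Y ≤ N := by
    have h2 : (X : ℝ) ≤ N := by exact_mod_cast hX
    have h3 : (0 : ℝ) ≤ Y := Nat.cast_nonneg _
    linarith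
  have hbad : ∑ t ∈ P.filter (fun t => (t.2 - t.1) + (t.1 - t.2) ∈ K),
      ∏ i, |∑ j ∈ range H, z (t.1 + M i + j) * z (t.2 + M i + j)| ≤ ε / 2 * N ^ 2 * (H : ℝ) ^ r := by
    have h2 : ∑ t ∈ P.filter (fun t => (t.2 - t.1) + (t.1 - t.2) ∈ K),
        ∏ i, |∑ j ∈ range H, z (t.1 + M i + j) * z (t.2 + M i + j)| ≤
        (P.filter (fun t => (t.2 - t.1) + (t.1 - t.2) ∈ K)).card * (H : ℝ) ^ r := by
      rw [← nsmul_eq_mul]
      apply sum_le_card_nsmul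
      intro t _
      calc ∏ i, |∑ j ∈ range H, z (t.1 + M i + j) * z (t.2 + M i + j)| ≤ ∏ _i : Fin r, (H : ℝ) :=
            prod_le_prod (fun _ _ => abs_nonneg _) (fun i _ => htriv t i)
        _ = (H : ℝ) ^ r := by rw [prod_const, card_univ, Fintype.card_fin]
    refine h2.trans (mul_le_mul_of_nonneg_right ?_ (by positivity))
    refine (pairs_card K Y X).trans ?_
    rw [hJ]
    have h3 : (K.card : ℝ) ≤ ε / 4 * N := hK.trans (mul_le_mul_of_nonneg_right (min_le_left _ _) hN0.le)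
    calc 2 * (K.card : ℝ) * ((X : ℝ) - Y) ≤ 2 * (ε / 4 * N) * N :=
          mul_le_mul (mul_le_mul_of_nonneg_left h3 (by norm_num)) hJN hJ0 (by positivity)
      _ = ε / 2 * N ^ 2 := by ring
  have hgood : ∑ t ∈ P.filter (fun t => ¬ (t.2 - t.1) + (t.1 - t.2) ∈ K),
      ∏ i, |∑ j ∈ range H, z (t.1 + M i + j) * z (t.2 + M i + j)| ≤
        (X - Y) ^ 2 * ((H : ℝ) * (1 / 3 + κ)) ^ r := by
    have h2 : ∑ t ∈ P.filter (fun t => ¬ (t.2 - t.1) + (t.1 - t.2) ∈ K),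
        ∏ i, |∑ j ∈ range H, z (t.1 + M i + j) * z (t.2 + M i + j)| ≤
        (P.filter (fun t => ¬ (t.2 - t.1) + (t.1 - t.2) ∈ K)).card * ((H : ℝ) * (1 / 3 + κ)) ^ r := by
      rw [← nsmul_eq_mul]
      apply sum_le_card_nsmul
      intro t ht
      rw [mem_filter, hP, mem_product, mem_Ioc, mem_Ioc] at ht
      obtain ⟨⟨⟨ha, hb⟩, hc, hd⟩, he⟩ := ht
      calc ∏ i, |∑ j ∈ range H, z (t.1 + M i + j) * z (t.2 + M i + j)| ≤ ∏ _i : Fin r, ((H : ℝ) * (1 / 3 + κ)) := by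
            refine prod_le_prod (fun _ _ => abs_nonneg _) (fun i _ => ?_)
            rcases le_total t.1 t.2 with h | h
            · apply hkey t.1 t.2 h (by omega) (by omega)
              have : t.2 - t.1 = (t.2 - t.1) + (t.1 - t.2) := by omega
              rwa [this]
            · have e1 : ∑ j ∈ range H, z (t.1 + M i + j) * z (t.2 + M i + j) =
                  ∑ j ∈ range H, z (t.2 + M i + j) * z (t.1 + M i + j) :=
                sum_congr rfl fun j _ => mul_comm _ _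
              rw [e1]
              apply hkey t.2 t.1 h (by omega) (by omega)
              have : t.1 - t.2 = (t.2 - t.1) + (t.1 - t.2) := by omega
              rwa [this]
        _ = ((H : ℝ) * (1 / 3 + κ)) ^ r := by rw [prod_const, card_univ, Fintype.card_fin]
    refine h2.trans (mul_le_mul_of_nonneg_right ?_ (by positivity))
    have h3 : (P.filter (fun t => ¬ (t.2 - t.1) + (t.1 - t.2) ∈ K)).card ≤ (X - Y) * (X - Y) := by
      refine (card_filter_le _ _).trans (le_of_eq ?_)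
      rw [hP, card_product, Nat.card_Ioc]
    have h4 : ((P.filter (fun t => ¬ (t.2 - t.1) + (t.1 - t.2) ∈ K)).card : ℝ) ≤
        ((X - Y : ℕ) : ℝ) * ((X - Y : ℕ) : ℝ) := by exact_mod_cast h3
    rw [hJ] at h4
    rw [sq]
    exact h4
  refine (add_le_add hbad hgood).trans ?_
  rw [mul_pow]
  have h5 : ((X : ℝ) - Y) ^ 2 * ((H : ℝ) ^ r * (1 / 3 + κ) ^ r) ≤
      (H : ℝ) ^ r * (((X : ℝ) - Y) ^ 2 * ((1 / 3) ^ r + ε / 2)) := by
    have h6 : ((X : ℝ) - Y) ^ 2 * ((H : ℝ) ^ r * (1 / 3 + κ) ^ r) =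
        (H : ℝ) ^ r * (((X : ℝ) - Y) ^ 2 * (1 / 3 + κ) ^ r) := by ring
    rw [h6]
    apply mul_le_mul_of_nonneg_left _ (by positivity)
    exact mul_le_mul_of_nonneg_left hκr (by positivity)
  have h7 : ((X : ℝ) - Y) ^ 2 ≤ N ^ 2 := pow_le_pow_left₀ hJ0 hJN 2
  have h8 : (H : ℝ) ^ r * (((X : ℝ) - Y) ^ 2 * ((1 / 3) ^ r + ε / 2)) ≤
      (H : ℝ) ^ r * (((X : ℝ) - Y) ^ 2 / 3 ^ r + ε / 2 * N ^ 2) := by
    apply mul_le_mul_of_nonneg_left _ (by positivity)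
    rw [one_div, inv_pow, mul_add, ← div_eq_mul_inv]
    nlinarith
  have h9 : 0 ≤ (H : ℝ) ^ r := by positivity
  nlinarith

end Pool.Agent.P8H6.Chw
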