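import Mathlib
import Pool.Agent.Y842.PH.Tri
import Pool.Agent.Y842.EL.One
import Pool.Agent.Y304.U.Avc
import Pool.Agent.Y304.U.Pw
import Pool.Agent.P8H6.Chw.Mom

/-!
# The Liouville function
-/

set_option autoImplicit false

namespace Pool.Agent.P8H6.Chw

open Finset
open Pool.Agent.Helper602.MK (ee)
open Pool.Agent.Y958.U (LZ)
open Pool.Agent.Y842.PH (Cr one_E part)
open Pool.Agent.H376R2.MR (lam)

lemma ee_dav (x : ℝ) : Pool.Agent.H807R2.Dav.ee x = ee x := by
  unfold Pool.Agent.H807R2.Dav.ee Pool.Agent.Helper602.MK.ee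
  congr 1
  ring

/-- exponential sums of the Liouville function over intervals, uniformly in the frequency -/
theorem dav (ε : ℝ) (hε : 0 < ε) : ∃ X₀ : ℕ, ∀ X : ℕ, X₀ ≤ X → ∀ y ≤ 3 * X, ∀ α : ℝ,
    ‖∑ n ∈ Icc 1 y, (lam n : ℂ) * ee (α * n)‖ ≤ ε * X := by
  obtain ⟨H₀, X₀, h⟩ := Pool.Agent.TH823.MRS.expo_lam (ε / 2) (by positivity) (4 / ε) (by positivity)
  obtain ⟨X₁, hX₁⟩ := exists_nat_ge (max H₀ (4 / ε))
  refine ⟨X₀ + X₁ + 1, fun X hX y hy α => ?_⟩
  have hX0 : (0 : ℝ) < X := by exact_mod_cast (by omega : 0 < X)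
  have hX1 : max H₀ (4 / ε) ≤ X := hX₁.trans (by exact_mod_cast (by omega : X₁ ≤ X))
  set t : ℕ → ℝ := fun n => min X (4 / ε * max ((y : ℝ) - n) 0) with ht
  have ht0 : ∀ n, 0 ≤ t n := fun n => le_min hX0.le (by positivity)
  have htX : ∀ n, t n ≤ X := fun n => min_le_left _ _
  have hlip : ∀ n m : ℕ, |t n - t m| ≤ 4 / ε * |(n : ℝ) - m| := by
    intro n m
    rw [ht]
    simp only
    refine (abs_min_sub_min_le_max _ _ _ _).trans ?_
    rw [sub_self, abs_zero, ← mul_sub, abs_mul, abs_of_pos (by positivity : (0 : ℝ) < 4 / ε)]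
    apply max_le (by positivity)
    apply mul_le_mul_of_nonneg_left _ (by positivity)
    refine (abs_max_sub_max_le_max _ _ _ _).trans ?_
    rw [sub_self, abs_zero]
    apply max_le _ (abs_nonneg _)
    rw [show (y : ℝ) - n - (y - m) = -((n : ℝ) - m) by ring, abs_neg]
  have h1 := h X (by omega) X ((le_max_left _ _).trans hX1) le_rfl (fun n => ((t n : ℝ) : ℂ))
    (fun n => by
      rw [Complex.norm_real, Real.norm_of_nonneg (ht0 n)]
      exact htX n)
    (fun n m => by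
      rw [← Complex.ofReal_sub, Complex.norm_real]
      exact hlip n m)
    (fun n hn => by
      have h2 : (y : ℝ) - n ≤ 0 := by
        have : y ≤ n := by omega
        have : (y : ℝ) ≤ n := by exact_mod_cast this
        linarith
      have h3 : t n = 0 := by
        rw [ht]
        simp only
        rw [max_eq_right h2, mul_zero, min_eq_right hX0.le]
      rw [h3]
      simp) α
  -- compare
  have e1 : ∑ n ∈ Icc 1 (3 * X), (lam n : ℂ) * ee ((n : ℝ) * α) * ((t n : ℝ) : ℂ) =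
      ∑ n ∈ Icc 1 y, (lam n : ℂ) * ee (α * n) * ((t n : ℝ) : ℂ) := by
    symm
    rw [← sum_subset (Icc_subset_Icc_right hy)]
    · refine sum_congr rfl fun n _ => ?_
      rw [mul_comm α]
    · intro n hn hn'
      rw [mem_Icc] at hn hn'
      have h2 : (y : ℝ) - n ≤ 0 := by
        have : y ≤ n := by omega
        have : (y : ℝ) ≤ n := by exact_mod_cast this
        linarith
      have h3 : t n = 0 := by
        rw [ht]
        simp only
        rw [max_eq_right h2, mul_zero, min_eq_right hX0.le]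
      rw [h3]
      simp
  simp only [ee_dav] at h1
  rw [e1] at h1
  have e2 : (X : ℂ) * ∑ n ∈ Icc 1 y, (lam n : ℂ) * ee (α * n) =
      ∑ n ∈ Icc 1 y, (lam n : ℂ) * ee (α * n) * ((t n : ℝ) : ℂ) +
      ∑ n ∈ Icc 1 y, (lam n : ℂ) * ee (α * n) * (((X : ℝ) - t n : ℝ) : ℂ) := by
    rw [mul_sum, ← sum_add_distrib]
    refine sum_congr rfl fun n _ => ?_
    push_cast
    ring
  have h4 : ‖∑ n ∈ Icc 1 y, (lam n : ℂ) * ee (α * n) * (((X : ℝ) - t n : ℝ) : ℂ)‖ ≤ ε / 2 * X * X := by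
    have h5 : ∀ n ∈ Icc 1 y, ‖(lam n : ℂ) * ee (α * n) * (((X : ℝ) - t n : ℝ) : ℂ)‖ ≤
        if (y : ℝ) - n < ε / 4 * X then (X : ℝ) else 0 := by
      intro n hn
      rw [norm_mul, norm_mul, ee_norm, mul_one, Complex.norm_real, Real.norm_of_nonneg (by linarith [htX n])]
      have h6 : ‖(lam n : ℂ)‖ ≤ 1 := by
        rw [Complex.norm_intCast]
        exact_mod_cast Pool.Agent.Y842.EL.abs_lam n
      have h7 : 0 ≤ (X : ℝ) - t n := by linarith [htX n]
      refine (mul_le_of_le_one_left h7 h6).trans ?_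
      split_ifs with h8
      · linarith [ht0 n]
      · rw [not_lt] at h8
        have h9 : t n = X := by
          rw [ht]
          simp only
          apply min_eq_left
          have h10 : 0 ≤ (y : ℝ) - n := le_trans (by positivity) h8
          rw [max_eq_left h10]
          calc (X : ℝ) = 4 / ε * (ε / 4 * X) := by field_simp
            _ ≤ 4 / ε * ((y : ℝ) - n) := mul_le_mul_of_nonneg_left h8 (by positivity)
        rw [h9, sub_self]
    refine (norm_sum_le _ _).trans ((sum_le_sum h5).trans ?_)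
    rw [← sum_filter, sum_const, nsmul_eq_mul]
    apply mul_le_mul_of_nonneg_right _ hX0.le
    have h6 : (Icc 1 y).filter (fun n : ℕ => (y : ℝ) - n < ε / 4 * X) ⊆ (range (⌈ε / 4 * X⌉₊)).image (fun j => y - j) := by
      intro n hn
      rw [mem_filter, mem_Icc] at hn
      obtain ⟨⟨hn1, hn2⟩, hn3⟩ := hn
      rw [mem_image]
      refine ⟨y - n, ?_, by omega⟩
      rw [mem_range, Nat.lt_ceil, Nat.cast_sub hn2]
      exact hn3
    have h7 : ((((Icc 1 y).filter (fun n : ℕ => (y : ℝ) - n < ε / 4 * X)).card : ℕ) : ℝ) ≤ ⌈ε / 4 * X⌉₊ := by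
      exact_mod_cast (card_le_card h6).trans (card_image_le.trans (by rw [card_range]))
    refine h7.trans ((Nat.ceil_lt_add_one (by positivity)).le.trans ?_)
    have h8 : 4 / ε ≤ X := (le_max_right _ _).trans hX1
    rw [div_le_iff₀ hε] at h8
    linarith
  have h5 : (X : ℝ) * ‖∑ n ∈ Icc 1 y, (lam n : ℂ) * ee (α * n)‖ ≤ X * (ε * X) := by
    calc (X : ℝ) * ‖∑ n ∈ Icc 1 y, (lam n : ℂ) * ee (α * n)‖ =
          ‖(X : ℂ) * ∑ n ∈ Icc 1 y, (lam n : ℂ) * ee (α * n)‖ := by rw [norm_mul, Complex.norm_natCast]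
      _ ≤ ε / 2 * X * X + ε / 2 * X * X := by
          rw [e2]
          exact (norm_add_le _ _).trans (add_le_add h1 h4)
      _ = X * (ε * X) := by ring
  exact le_of_mul_le_mul_left h5 hX0

/-- `λ(n!)` -/
noncomputable def fa (n : ℕ) : ℝ := (-1) ^ ArithmeticFunction.cardFactors n.factorial

theorem fa_pm (n : ℕ) : fa n = 1 ∨ fa n = -1 := neg_one_pow_eq_or ℝ _

theorem fa_abs (n : ℕ) : |fa n| ≤ 1 := by
  rcases fa_pm n with h | h <;> rw [h] <;> norm_num

theorem fa_sq (n : ℕ) : fa n * fa n = 1 := by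
  rcases fa_pm n with h | h <;> rw [h] <;> norm_num

theorem fa_succ (n : ℕ) : fa (n + 1) = (lam (n + 1) : ℝ) * fa n := by
  unfold fa lam
  rw [Nat.factorial_succ, ArithmeticFunction.cardFactors_mul (by omega) (Nat.factorial_ne_zero n), pow_add]
  push_cast
  ring

theorem fa_one (n : ℕ) : fa n * fa (n + 1) = (lam (n + 1) : ℝ) := by
  rw [fa_succ]
  linear_combination ((lam (n + 1) : ℝ)) * fa_sq n

theorem fa_two (n : ℕ) : fa n * fa (n + 2) = (lam (n + 1) : ℝ) * lam (n + 2) := by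
  rw [show n + 2 = n + 1 + 1 by ring, fa_succ, fa_succ]
  linear_combination ((lam (n + 1) : ℝ) * lam (n + 1 + 1)) * fa_sq n

/-- the exceptional set and the exponential sums -/
theorem exc : ∃ E : Set ℕ, LZ E ∧ ∀ η : ℝ, 0 < η → ∃ N₀ : ℕ, ∀ N : ℕ, N₀ ≤ N → N ∉ E → ∀ α : ℝ, ∀ y ≤ 5 * N,
    ‖∑ n ∈ range y, ((fa n * fa (n + 1) : ℝ) : ℂ) * ee (α * n)‖ ≤ η * N ∧
    ‖∑ n ∈ range y, ((fa n * fa (n + 2) : ℝ) : ℂ) * ee (α * n)‖ ≤ η * N := by
  obtain ⟨E, hE, h1⟩ := one_E (Pool.Agent.Y304.U.avc Pool.Agent.Y304.U.pw) lam Pool.Agent.Y842.EL.abs_lam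
    Pool.Agent.TH823.MRS.lam_flip Pool.Agent.TH823.MRS.expo_lam
  refine ⟨{N | 6 * N + 0 ∈ E}, Pool.Agent.Y842.EL.LZ_pull hE 6 0 (by norm_num), fun η hη => ?_⟩
  set ε : ℝ := min 1 (η / 24) with hε
  have hε0 : 0 < ε := lt_min one_pos (by positivity)
  have hε1 : ε ≤ 1 := min_le_left _ _
  have hε2 : ε ≤ η / 24 := min_le_right _ _
  obtain ⟨N₁, hN₁⟩ := h1 1 le_rfl (ε ^ 2 / 16) (by positivity)
  obtain ⟨N₂, hN₂⟩ := dav (η / 2) (by positivity)
  obtain ⟨N₃, hN₃⟩ := exists_nat_ge (max (8 / ε) (2 / η))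
  refine ⟨N₁ + N₂ + N₃ + 1, fun N hN hNE α y hy => ?_⟩
  have hN0 : (0 : ℝ) < N := by exact_mod_cast (by omega : 0 < N)
  have hlam1 : ∀ n, ‖(lam n : ℂ)‖ ≤ 1 := by
    intro n
    rw [Complex.norm_intCast]
    exact_mod_cast Pool.Agent.Y842.EL.abs_lam n
  have hN3 : max (8 / ε) (2 / η) ≤ N := hN₃.trans (by exact_mod_cast (by omega : N₃ ≤ N))
  constructor
  · have e1 : ∑ n ∈ range y, ((fa n * fa (n + 1) : ℝ) : ℂ) * ee (α * n) =
        ee (-α) * ∑ n ∈ Icc 1 y, (lam n : ℂ) * ee (α * n) := by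
      have e2 : ∑ n ∈ Icc 1 y, (lam n : ℂ) * ee (α * n) =
          ∑ n ∈ range y, (lam (n + 1) : ℂ) * ee (α * (n + 1 : ℕ)) := by
        rw [range_eq_Ico, sum_Ico_add' (fun n : ℕ => (lam n : ℂ) * ee (α * n)) 0 y 1]
        rfl
      rw [e2, mul_sum]
      refine sum_congr rfl fun n _ => ?_
      rw [fa_one]
      have e3 : α * ((n + 1 : ℕ) : ℝ) = α * n + α := by push_cast; ring
      rw [e3, ee_add]
      push_cast
      linear_combination (-((lam (n + 1) : ℂ) * ee (α * n))) * ee_neg_mul α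
    rw [e1, norm_mul, ee_norm, one_mul]
    refine (hN₂ (2 * N) (by omega) y (by omega) α).trans (le_of_eq ?_)
    push_cast
    ring
  · have hNE' : 6 * N ∉ E := hNE
    have h6 : (0 : ℝ) < (6 * N : ℕ) := by exact_mod_cast (by omega : 0 < 6 * N)
    have h2 := part (6 * N) (fun n => (lam n : ℂ) * lam (n + 1)) (by
      intro n
      rw [norm_mul]
      exact mul_le_one₀ (hlam1 _) (norm_nonneg _) (hlam1 _)) ε hε0 hε1
      (by
        have := (le_max_left (8 / ε) (2 / η)).trans hN3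
        push_cast
        linarith)
      (fun β => hN₁ (6 * N) (by omega) hNE' β) (y + 1) (by omega) α
    have e1 : ∑ n ∈ range y, ((fa n * fa (n + 2) : ℝ) : ℂ) * ee (α * n) =
        ee (-α) * (∑ m ∈ range (y + 1), ((lam m : ℂ) * lam (m + 1)) * ee (α * m) - (lam 0 : ℂ) * lam (0 + 1)) := by
      rw [sum_range_succ']
      have e4 : ee (α * ((0 : ℕ) : ℝ)) = 1 := by
        rw [Nat.cast_zero, mul_zero, ee_zero]
      rw [e4, mul_one, add_sub_cancel_right, mul_sum]
      refine sum_congr rfl fun n _ => ?_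
      rw [fa_two]
      have e3 : α * ((n + 1 : ℕ) : ℝ) = α * n + α := by push_cast; ring
      rw [e3, ee_add, show n + 1 + 1 = n + 2 by ring]
      push_cast
      linear_combination (-((lam (n + 1) : ℂ) * lam (n + 2) * ee (α * n))) * ee_neg_mul α
    rw [e1, norm_mul, ee_norm, one_mul]
    refine (norm_sub_le _ _).trans ?_
    have h3 : ‖(lam 0 : ℂ) * lam (0 + 1)‖ ≤ 1 := by
      rw [norm_mul]
      exact mul_le_one₀ (hlam1 _) (norm_nonneg _) (hlam1 _)
    have h4 : ε * ((6 * N : ℕ) : ℝ) ≤ η / 4 * N := by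
      push_cast
      calc ε * (6 * (N : ℝ)) ≤ η / 24 * (6 * N) := mul_le_mul_of_nonneg_right hε2 (by positivity)
        _ = η / 4 * N := by ring
    have h5 : 1 ≤ η / 2 * N := by
      have := (le_max_right (8 / ε) (2 / η)).trans hN3
      rw [div_le_iff₀ hη] at this
      linarith
    have h7 : ‖∑ m ∈ range (y + 1), ((lam m : ℂ) * lam (m + 1)) * ee (α * m)‖ ≤ ε * ((6 * N : ℕ) : ℝ) := h2
    have h8 : 0 ≤ η * N := by positivity
    linarith

end Pool.Agent.P8H6.Chw
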